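import Mathlib
import Pool.Agent.Helper98.ConvexTransformDefs
import Pool.Agent.Helper98.ConvexTransformQ1

open MeasureTheory ProbabilityTheory Set
open Pool.Agent.Helper98.ConvexTransform

namespace Pool.Agent.Results.MP_4978a0_pr.QuantileConcaveQ1

/-- **Answer to Q1.** Let `W` be an absolutely continuous distribution with support interval
`[a, d)` on which its distribution function is strictly increasing, `0 < p < 1`,
`z = W⁻¹(p) - a`, and let `𝒞` be the class `𝒞⁺_W` (or any subclass of it that contains all its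
atomless members).

* If `W` has infinite second moment the class is empty.
* Otherwise `inf F⁻¹(p)/m_F = 0`.
* If `z E(Z) ≤ E(Z²)` for `Z ∼ W - a` then `sup F⁻¹(p)/m_F = z / (E Z²)^{1/2}`.
* If `z E(Z) > E(Z²)` then there is exactly one `α ∈ (0, z)` with `E (z - Z)(Z - α)_+ = 0`, and
  `sup F⁻¹(p)/m_F = (z - α) / (E (Z - α)_+²)^{1/2}`. -/
theorem result (W : Measure ℝ) (a p : ℝ) (hW : IsReference W a) (hp0 : 0 < p) (hp1 : p < 1)
    (𝒞 : Set (Measure ℝ)) (h𝒞 : 𝒞 ⊆ classPlus W)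
    (h𝒞' : ∀ F ∈ classPlus W, (∀ x, F {x} = 0) → F ∈ 𝒞) :
    (¬ Integrable (fun x => x ^ 2) W → classPlus W = ∅) ∧
    (Integrable (fun x => x ^ 2) W →
      IsGLB (ratio p '' 𝒞) 0 ∧
      ((quantile W p - a) * ∫ x, (x - a) ∂W ≤ ∫ x, (x - a) ^ 2 ∂W →
        IsLUB (ratio p '' 𝒞)
          ((quantile W p - a) / Real.sqrt (∫ x, (x - a) ^ 2 ∂W))) ∧
      (∫ x, (x - a) ^ 2 ∂W < (quantile W p - a) * ∫ x, (x - a) ∂W →
        ∃ α ∈ Ioo 0 (quantile W p - a),
          (∀ β ∈ Ioo 0 (quantile W p - a),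
            ∫ x, (quantile W p - x) * max (x - a - β) 0 ∂W = 0 ↔ β = α) ∧
          IsLUB (ratio p '' 𝒞)
            ((quantile W p - a - α) / Real.sqrt (∫ x, max (x - a - α) 0 ^ 2 ∂W)))) :=
  Pool.Agent.Helper98.ConvexTransformQ1.main W a p hW hp0 hp1 𝒞 h𝒞 h𝒞'

end Pool.Agent.Results.MP_4978a0_pr.QuantileConcaveQ1
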