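import Mathlib
import Pool.Agent.Helper98.ConvexTransformDefs
import Pool.Agent.Helper98.ConvexTransformQ2

open MeasureTheory ProbabilityTheory Set
open Pool.Agent.Helper98.ConvexTransform

namespace Pool.Agent.Results.MP_4978a0_pr.QuantileConvexQ2

/-- **Answer to Q2.** Let `W` be an absolutely continuous distribution with support interval
`[a, d)` on which its distribution function is strictly increasing, `0 < p < 1`,
`z = W⁻¹(p) - a`, and let `𝒞` be the class `𝒞⁻_W` (or any subclass of it that contains all its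
atomless members). For `Z ∼ W - a`:

* `sup F⁻¹(p)/m_F = z / (E min(Z, z)²)^{1/2}`;
* if `W` has finite second moment then `inf F⁻¹(p)/m_F = min (1, z / (E Z²)^{1/2})`;
* if `W` has infinite second moment then `inf F⁻¹(p)/m_F = 0`. -/
theorem result (W : Measure ℝ) (a p : ℝ) (hW : IsReference W a) (hp0 : 0 < p) (hp1 : p < 1)
    (𝒞 : Set (Measure ℝ)) (h𝒞 : 𝒞 ⊆ classMinus W)
    (h𝒞' : ∀ F ∈ classMinus W, (∀ x, F {x} = 0) → F ∈ 𝒞) :
    IsLUB (ratio p '' 𝒞)
      ((quantile W p - a) / Real.sqrt (∫ x, min (x - a) (quantile W p - a) ^ 2 ∂W)) ∧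
    (Integrable (fun x => x ^ 2) W →
      IsGLB (ratio p '' 𝒞)
        (min 1 ((quantile W p - a) / Real.sqrt (∫ x, (x - a) ^ 2 ∂W)))) ∧
    (¬ Integrable (fun x => x ^ 2) W → IsGLB (ratio p '' 𝒞) 0) :=
  Pool.Agent.Helper98.ConvexTransformQ2.main W a p hW hp0 hp1 𝒞 h𝒞 h𝒞'

end Pool.Agent.Results.MP_4978a0_pr.QuantileConvexQ2
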